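import Pool.Agent.C4F.StmtsM
import Pool.Agent.Helper32_Poly.Comp

/-!
# Squad C4F, row COM (helper32): composition of machines with explicit time
-/

namespace Pool.Agent.C4F.H32

open Turing Function Computability StateTransition
open Pool.Agent.Helper32_Poly Pool.Agent.C4F

set_option backward.isDefEq.respectTransparency false

theorem com : ComStmt := by
  intro Γ Δ Θ M₁ M₂
  obtain ⟨tm₁, i₁, o₁⟩ := M₁
  obtain ⟨tm₂, i₂, o₂⟩ := M₂
  let _ := tm₁.kDecidableEq
  let _ := tm₂.kDecidableEq
  let _ := tm₁.kFin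
  let _ := tm₂.kFin
  let _ := tm₁.ΛFin
  let tr : tm₁.Γ tm₁.k₁ → tm₂.Γ tm₂.k₀ := fun a => i₂.symm (o₁ a)
  let C : ℕ := ∑ l, pushes (tm₁.m l)
  refine ⟨⟨compMachine tm₁ tm₂ tr, i₁, o₂⟩, 2 * C + 2, ?_⟩
  intro w v o t₁ t₂ H₁ H₂
  obtain ⟨⟨⟨n₁, E₁⟩, L₁⟩⟩ := H₁
  obtain ⟨⟨⟨n₂, E₂⟩, L₂⟩⟩ := H₂
  simp only at L₁ L₂
  have key : ∃ n, n ≤ (2 * C + 2) * (t₁ + t₂ + w.length + 1) ∧
      (flip bind (compMachine tm₁ tm₂ tr).step)^[n]
        (some (initList (compMachine tm₁ tm₂ tr) (w.map i₁.symm))) =
        some (haltList (compMachine tm₁ tm₂ tr) (o.map o₂.symm)) := by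
    set x := w.map i₁.symm with hx
    set y := v.map o₁.symm with hy
    set z := o.map o₂.symm with hz
    have E₁' : (flip bind tm₁.step)^[n₁] (some (initList tm₁ x)) = some (haltList tm₁ y) := E₁
    have E₂' : (flip bind tm₂.step)^[n₂] (some (initList tm₂ (v.map i₂.symm))) =
        some (haltList tm₂ z) := E₂
    -- size of y
    have hsz : y.length ≤ x.length + C * n₁ := by
      have h := steps_size tm₁.m n₁ (initList tm₁ x) (haltList tm₁ y) E₁'
      have h2 : totalSize (initList tm₁ x).stk = x.length := by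
        rw [initList_eq]
        have := totalSize_update (fun k => ([] : List (tm₁.Γ k))) tm₁.k₀ x
        simpa [totalSize] using this
      have h3 : totalSize (haltList tm₁ y).stk = y.length := by
        rw [haltList_eq]
        have := totalSize_update (fun k => ([] : List (tm₁.Γ k))) tm₁.k₁ y
        simpa [totalSize] using this
      rw [h2, h3] at h
      exact h
    have s1 := steps_emb₁ tm₁ tm₂ tr n₁ _ _ E₁'
    have s2 := transfer₁ tm₁ tm₂ tr (tm₁.initialState, tm₂.initialState) y (fun _ => []) []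
      none (update (fun _ => []) tm₁.k₁ y) (by simp)
    have s3 := transfer₂ tm₁ tm₂ tr (tm₁.initialState, tm₂.initialState)
      ((y.map tr).reverse ++ []) (update (update (fun _ => []) tm₁.k₁ y) tm₁.k₁ [])
      none (fun _ => [])
    have s4 := steps_emb₂ tm₁ tm₂ tr n₂ _ _ E₂'
    have hyt : y.map tr = v.map i₂.symm := by
      simp [hy, tr, List.map_map, Function.comp_def]
    have c1 : emb₁ tm₁ tm₂ (haltList tm₁ y) = ⟨some (.inr false),
        ((tm₁.initialState, tm₂.initialState), none),
        mix tm₁ tm₂ (update (fun _ => []) tm₁.k₁ y) (fun _ => []) []⟩ := by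
      rw [haltList_eq]; rfl
    have c2 : (⟨some (.inl (.inr tm₂.main)), ((tm₁.initialState, tm₂.initialState), none),
        mix tm₁ tm₂ (update (update (fun _ => []) tm₁.k₁ y) tm₁.k₁ [])
          (update (fun _ => []) tm₂.k₀ (((y.map tr).reverse ++ []).reverse ++ [])) []⟩ :
          TM2.Cfg (CG tm₁ tm₂) (CL tm₁ tm₂) (CS tm₁ tm₂)) =
        emb₂ tm₁ tm₂ (initList tm₂ (v.map i₂.symm)) := by
      rw [initList_eq]
      have e : (update (update (fun k => ([] : List (tm₁.Γ k))) tm₁.k₁ y) tm₁.k₁ []) =
          fun _ => [] := by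
        funext k
        by_cases h : k = tm₁.k₁
        · subst h; simp
        · simp [h]
      rw [e]
      simp only [List.append_nil, List.reverse_reverse, hyt]
      rfl
    rw [c1] at s1
    rw [c2] at s3
    have s5 := Steps.trans (Steps.trans (Steps.trans s1 s2) s3) s4
    have d1 : emb₁ tm₁ tm₂ (initList tm₁ x) = initList (compMachine tm₁ tm₂ tr) x := by
      rw [initList_eq, initList_eq]
      have e : (mix tm₁ tm₂ (update (fun _ => []) tm₁.k₀ x) (fun _ => []) []) =
          @update (CK tm₁ tm₂) (fun k => List (CG tm₁ tm₂ k)) _ (fun _ => [])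
            (some (Sum.inl tm₁.k₀)) x := by
        rw [← update_mix_inl]
        congr 1
        funext k
        match k with
        | none => rfl
        | some (.inl k) => rfl
        | some (.inr k) => rfl
      unfold emb₁
      simp only
      rw [e]
      rfl
    have d2 : emb₂ tm₁ tm₂ (haltList tm₂ z) = haltList (compMachine tm₁ tm₂ tr) z := by
      rw [haltList_eq, haltList_eq]
      have e : (mix tm₁ tm₂ (fun _ => []) (update (fun _ => []) tm₂.k₁ z) []) =
          @update (CK tm₁ tm₂) (fun k => List (CG tm₁ tm₂ k)) _ (fun _ => [])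
            (some (Sum.inr tm₂.k₁)) z := by
        rw [← update_mix_inr]
        congr 1
        funext k
        match k with
        | none => rfl
        | some (.inl k) => rfl
        | some (.inr k) => rfl
      unfold emb₂
      simp only
      rw [e]
      rfl
    rw [d1, d2] at s5
    refine ⟨_, ?_, s5⟩
    have l1 : x.length = w.length := by simp [hx]
    have l3 : ((y.map tr).reverse ++ []).length = y.length := by simp
    rw [l3]
    have m1 : C * n₁ ≤ C * t₁ := Nat.mul_le_mul_left _ L₁
    have m2 : (2 * C + 2) * (t₁ + t₂ + w.length + 1) =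
        2 * (C * t₁) + 2 * (C * (t₂ + w.length + 1)) + 2 * t₁ + 2 * t₂ + 2 * w.length + 2 := by
      ring
    rw [m2]
    omega
  exact ⟨⟨⟨key.choose, key.choose_spec.2⟩, key.choose_spec.1⟩⟩

end Pool.Agent.C4F.H32
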