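import Pool.Agent.C4F.StmtsM

/-!
# Squad C4F, rows TNM and TLK (helper32): numbers of the data, links
-/

set_option autoImplicit false

namespace Pool.Agent.C4F.H32

open Pool.Agent.C4F
open Pool.Agent.Helper53_CookLevin (PGen)
open Pool.Agent.Helper53_Chan (Test Test.congr)

theorem tnm (K : Kit) : TnmStmt := by
  intro r e
  have hq : NumF r (fun ρ => (dat (At e ρ)).q) := K.var r (e 0)
  have hk : NumF r (fun ρ => (dat (At e ρ)).k) := K.var r (e 1)
  have hn : NumF r (fun ρ => (dat (At e ρ)).n) := K.var r (e 2)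
  have hm : NumF r (fun ρ => (dat (At e ρ)).m) := K.var r (e 3)
  have hh : NumF r (fun ρ => (dat (At e ρ)).h) :=
    K.div r _ _ (K.sub r _ _ hq (K.cst r 1)) (K.cst r 2)
  have hkp : NumF r (fun ρ => (dat (At e ρ)).kp) := K.mul r _ _ hh hq
  have hW : NumF r (fun ρ => (dat (At e ρ)).W) := by
    have h1 := K.add r _ _ (K.mul r _ _ (K.cst r 3)
      (K.add r _ _ (K.div r _ _ hm hkp) (K.cst r 1))) (K.mul r _ _ hkp hkp)
    have h2 : (fun ρ : Fin r → List Lt => (dat (At e ρ)).W) = fun ρ =>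
        3 * ((dat (At e ρ)).m / (dat (At e ρ)).kp + 1) +
          (dat (At e ρ)).kp * (dat (At e ρ)).kp := by
      funext ρ
      show 3 * ((dat (At e ρ)).m / (dat (At e ρ)).kp + 1) + (dat (At e ρ)).kp ^ 2 = _
      rw [pow_two]
    rw [h2]
    exact h1
  refine ⟨hq, hk, hn, hm, hh, hkp, hW, fun s hs => ?_⟩
  have hvr : NumF r (fun ρ => (dat (At e ρ)).vr (s ρ)) := by
    have h1 : NumF (r + 1 + 1) (fun ρ => s (fun i => ρ i.succ.succ) *
        (ρ (e 2).succ.succ).length + (ρ 0).length) :=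
      K.add _ _ _ (K.mul _ _ _ (K.rename r (r + 1 + 1) (fun i => i.succ.succ) s hs)
        (K.var _ (e 2).succ.succ)) (K.var _ 0)
    have h2 := K.look (r + 1 + 1) (e 4).succ.succ Lt.tick _ h1
    have h3 := K.all (r + 1) (fun ρ => (ρ 0).length + 1)
      (fun u ρ => (ρ (e 4).succ)[s (fun i => ρ i.succ) * (ρ (e 2).succ).length + u]? =
        some Lt.tick) (K.add _ _ _ (K.var _ 0) (K.cst _ 1)) h2
    exact K.cnt r (fun ρ => (ρ (e 2)).length)
      (fun v ρ => ∀ u < v + 1, (ρ (e 4))[s ρ * (ρ (e 2)).length + u]? = some Lt.tick)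
      (K.var r (e 2)) h3
  have hsg : Test r (fun ρ => (dat (At e ρ)).sg (s ρ) = true) := by
    have h1 := K.look r (e 4) Lt.pos _ (K.add _ _ _ (K.mul _ _ _ hs hn) hvr)
    refine Test.congr h1 fun ρ => ?_
    exact (decide_eq_true_iff (p := (ρ (e 4))[s ρ * (ρ (e 2)).length +
      (dat (At e ρ)).vr (s ρ)]? = some Lt.pos)).symm
  have hgrp : NumF r (fun ρ => (dat (At e ρ)).grp (s ρ)) :=
    K.mod _ _ _ (K.div _ _ _ hs (K.cst r 3)) hkp
  have hq2 : NumF r (fun ρ => (dat (At e ρ)).q ^ 2) := by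
    have h2 : (fun ρ : Fin r → List Lt => (dat (At e ρ)).q ^ 2) = fun ρ =>
        (dat (At e ρ)).q * (dat (At e ρ)).q := by
      funext ρ
      rw [pow_two]
    rw [h2]
    exact K.mul _ _ _ hq hq
  exact ⟨hvr, hsg, hgrp, K.div _ _ _ hs hq2, K.div _ _ _ (K.mod _ _ _ hs hq2) hq,
    K.mod _ _ _ hs hq⟩

theorem tlk (K : Kit) (tnm : TnmStmt) : TlkStmt := by
  intro r e s t hs ht
  obtain ⟨hq, hk, hn, hm, hh, hkp, hW, hrest⟩ := tnm r e
  have h1 := K.lt r _ _ hs ht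
  have h2 := K.lt r _ _ ht (K.mul r _ _ (K.cst r 3) hm)
  have h3 := K.eq r _ _ (hrest s hs).1 (hrest t ht).1
  have h4 : Test r (fun ρ => ∀ u, s ρ < u → u < t ρ →
      (dat (At e ρ)).vr u ≠ (dat (At e ρ)).vr (s ρ)) := by
    have hs1 : NumF (r + 1) (fun ρ => s (fun i => ρ i.succ)) := K.rename r (r + 1) Fin.succ s hs
    obtain ⟨-, -, -, -, -, -, -, hr1⟩ := tnm (r + 1) (fun i => (e i).succ)
    have h5 := (hr1 (fun ρ => (ρ 0).length) (K.var _ 0)).1
    have h6 := (hr1 _ hs1).1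
    have h7 := K.or _ _ _ (K.le _ _ _ (K.var _ 0) hs1) (K.not _ _ (K.eq _ _ _ h5 h6))
    have h8 := K.all r t (fun u ρ => u ≤ s ρ ∨
      ¬ (dat (At e ρ)).vr u = (dat (At e ρ)).vr (s ρ)) ht h7
    refine Test.congr h8 fun ρ => ?_
    constructor
    · intro h u hsu hut
      rcases h u hut with h9 | h9
      · omega
      · exact h9
    · intro h u hut
      by_cases h9 : u ≤ s ρ
      · exact Or.inl h9
      · exact Or.inr (h u (by omega) hut)
  exact K.and _ _ _ h1 (K.and _ _ _ h2 (K.and _ _ _ h3 h4))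

end Pool.Agent.C4F.H32
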